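import Pool.Agent.Lib.MP_53b341_co.Main

/-! Flow-pairs with ratio below one, from 2-factors of cubic graphs whose odd cycles are well
separated by edge cuts. -/

open Pool.Agent.Lib.MP_53b341_co

/-- Let `G` be a finite cubic multigraph (vertices `V`, edges `E`, ends `src e`, `tgt e`), `C` a
2-factor of `G` and `p, q` positive integers. For a set `X` of vertices let `d(X)` be the number of
edges with exactly one end in `X`, `c(X)` the number of those which belong to `C`, and `a(X)` the
number of odd cycles of `C` contained in `X`. Suppose that `(p + 2 q) y ≤ p d(X)` for every `X` and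
every natural number `y ≡ d(X) (mod 2)` with `2 y ≤ a(V)`, `2 y ≤ 2 a(X) + c(X)`,
`2 y ≤ 2 a(V \ X) + c(X)` and `p c(X) < q y`. Then `G` has a `p/q`-flow-pair `(φ₂, φ)` such that
`φ₂` is nonzero exactly on the edges of `C`. -/
theorem Pool.Agent.Results.MP_53b341_co.FlowPairFromCuts.result
    {V E : Type*} [Fintype V] [Fintype E] (src tgt : E → V)
    (hcubic : IsCubic src tgt) (C : Finset E) (hC : IsTwoFactor src tgt C)
    (p q : ℕ) (_hp : 0 < p) (_hq : 0 < q)
    (hcut : ∀ (X : Set V) (y : ℕ), y ≡ cut src tgt Finset.univ X [MOD 2] →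
      2 * y ≤ numOdd src tgt C Set.univ →
      2 * y ≤ 2 * numOdd src tgt C X + cut src tgt C X →
      2 * y ≤ 2 * numOdd src tgt C Xᶜ + cut src tgt C X →
      p * cut src tgt C X < q * y → (p + 2 * q) * y ≤ p * cut src tgt Finset.univ X) :
    ∃ φ₂ φ : E → ℤ, IsFlowPair src tgt p q φ₂ φ ∧ ∀ e, φ₂ e = 0 ↔ e ∉ C :=
  flow_pair src tgt hcubic C hC p q hcut
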